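import Pool.Agent.U987.SY.D

/-!
# An explicit gap for the stretch of compactly supported symplectomorphisms of `ℝ²ⁿ`

`SympCt n` is the group `Symp_c(ℝ²ⁿ, ω₀)` with its usual topology, the direct limit of the `C^∞`
topologies of the subgroups supported in compact sets (starting library). Let `f`, `g` be two
compact families of its elements (for instance `g = id`, and `f` one symplectomorphism) with

`|df(x) v| ≤ μ |dg(x) v|` for all `x` and `v`.

Then `f` and `g` are homotopic, relative to the set where they are equal, if `μ` is less than an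
explicit constant which depends only on `n`: it suffices that `μ² ≤ 1 + 1 / (2 √(2n))`, and in
dimension six that `μ ≤ 1.13`. In particular every compactly supported symplectomorphism of `ℝ⁶`
which is not isotopic to the identity in `Symp_c(ℝ⁶)` stretches some vector by more than `1.13`.

Proof. Let `A` be the average of the differentials `dφ` with a radial smoothing kernel. If
`|dφ| ≤ μ`, then `φ` multiplies distances by factors between `1 / μ` and `μ`, and the four point
inequality for reflected pairs of points gives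
`2 μ³ |A v| ≥ (1 + μ⁴ - (μ⁴ - 1) √(2n)) |v|`. If `A^* ω (v, .) = - c ω (v, .)` with `c ≥ 0`, then
`c ≥ |A v|² / |v|²` by this bound for all directions, and `1 + c ≤ μ² - |A v|² / |v|²` by the
variance identity for symplectic differentials. So the averaged differentials do not reverse `ω` in
any direction, and the mollified maps are corrected to symplectomorphisms by Moser's method
(starting library).
-/

set_option autoImplicit false

open Pool.Agent.W71.EC

namespace Pool.Agent.Results.MP_630a92_gt.ExplicitStretchGap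

variable {n : ℕ}

/-- The square of the Euclidean norm of a vector of `ℝ²ⁿ`. -/
def sq (v : R2 n) : ℝ := ∑ i, (v.1 i ^ 2 + v.2 i ^ 2)

/-- The directional derivative `D_v φ (x)`. -/
noncomputable def dv (φ : SympCt n) (v x : R2 n) : R2 n := fderiv ℝ φ.toEquiv x v

/-- The differentials of the members of the family `f` stretch vectors by at most the factor `μ`
more than those of the family `g`, at the same points. -/
def StretchedAtMost {C : Type} [TopologicalSpace C] (μ : ℝ) (f g : C(C, SympCt n)) : Prop :=
  ∀ p x v, sq (dv (f p) v x) ≤ μ ^ 2 * sq (dv (g p) v x)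

/-- Compact families `f`, `g` such that `f` is stretched at most by the factor `μ` more than `g` are
homotopic relative to the set where they agree. -/
def IsGap (n : ℕ) (μ : ℝ) : Prop :=
  ∀ (C : Type) [TopologicalSpace C] [CompactSpace C] (f g : C(C, SympCt n)),
    StretchedAtMost μ f g → f.HomotopicRel g {p | f p = g p}

theorem result (n : ℕ) :
    (∀ μ : ℝ, 1 ≤ μ → (μ ^ 4 - 1) * Real.sqrt (2 * (n : ℝ)) < 1 + μ ^ 4 →
      2 * μ ^ 6 * (μ ^ 2 - 1) < (1 + μ ^ 4 - (μ ^ 4 - 1) * Real.sqrt (2 * (n : ℝ))) ^ 2 →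
      IsGap n μ) ∧
    (1 ≤ n → IsGap n (Real.sqrt (1 + 1 / (2 * Real.sqrt (2 * (n : ℝ)))))) ∧
    IsGap 3 1.13 := by
  have key : ∀ m : ℕ, ∀ μ : ℝ, 1 ≤ μ → (μ ^ 4 - 1) * Real.sqrt (2 * (m : ℝ)) < 1 + μ ^ 4 →
      2 * μ ^ 6 * (μ ^ 2 - 1) < (1 + μ ^ 4 - (μ ^ 4 - 1) * Real.sqrt (2 * (m : ℝ))) ^ 2 →
      IsGap m μ := by
    intro m μ h0 h1 h2 C _ _ f g h
    have e : ((m + m : ℕ) : ℝ) = 2 * (m : ℝ) := by
      push_cast
      ring
    exact Pool.Agent.U987.SY.two h0 (by rw [e]; exact h1) (by rw [e]; exact h2) f g h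
  refine ⟨key n, fun hn => ?_, ?_⟩
  · have h3 : 0 ≤ 1 / (2 * Real.sqrt (2 * (n : ℝ))) := by positivity
    have h1 : 1 ≤ Real.sqrt (1 + 1 / (2 * Real.sqrt (2 * (n : ℝ)))) := by
      rw [Real.one_le_sqrt]
      linarith
    have h2 : Real.sqrt (1 + 1 / (2 * Real.sqrt (2 * (n : ℝ)))) ^ 2 =
        1 + 1 / (2 * Real.sqrt (2 * (n : ℝ))) := Real.sq_sqrt (by linarith)
    obtain ⟨k1, k2⟩ := Pool.Agent.U987.SY.adm_general n hn h1 h2.le
    exact key n _ h1 k1 k2
  · obtain ⟨k1, k2⟩ := Pool.Agent.U987.SY.adm_six
    exact key 3 _ (by norm_num) k1 k2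

end Pool.Agent.Results.MP_630a92_gt.ExplicitStretchGap
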